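import Pool.Agent.Run7.h568.DG.CIface

/-!
# Piece `C_inv` of the project `DG`, part 2 (`MP_00a7c6_gt`): twisting back
-/

set_option autoImplicit false

open Real Matrix Filter Topology

noncomputable section

namespace Run7.h96.DG

open Run7.h568.DG

variable {D : Type} [Fintype D] [DecidableEq D] {T : Tri D} {P : Portal T}

theorem mul01' (g h : SL) : (g * h).1 0 1 = g.1 0 0 * h.1 0 1 + g.1 0 1 * h.1 1 1 := by
  simp [Matrix.SpecialLinearGroup.coe_mul, Matrix.mul_apply, Fin.sum_univ_two]

theorem E_inv' (s : ℝ) : (E s)⁻¹ = -E s := by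
  rw [inv_eq_iff_mul_eq_one]
  ext i j
  have h : exp (s / 2) * exp (-s / 2) = 1 := by
    rw [← exp_add]
    ring_nf
    exact exp_zero
  have h' : exp (-s / 2) * exp (s / 2) = 1 := by
    rw [mul_comm]
    exact h
  fin_cases i <;> fin_cases j <;>
    simp [E, Matrix.SpecialLinearGroup.coe_mul, h, h']

theorem E_mul_E (s : ℝ) : E s * E s = -1 := by
  have h := mul_inv_cancel (E s)
  rw [E_inv', mul_neg] at h
  rw [← h, neg_neg]

theorem step_false (s : ℝ) : step false s = W * W * E s := by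
  ext i j
  fin_cases i <;> fin_cases j <;>
    simp [step, U, Del, W, E, Matrix.SpecialLinearGroup.coe_mul, Matrix.mul_apply,
      Fin.sum_univ_two]

/-- the twisted turn at a dart -/
def X (t : PTD P) (p : (D → ℝ) × ℝ) (d : D) : SL :=
  t.Rs p d * t.Rs p (T.sg d) * t.Ri p (T.sg (T.sg d))

theorem Pd_succ (t : PTD P) (p : (D → ℝ) × ℝ) (d : D) (n : ℕ) :
    t.Pd p d (n + 1) = t.Pd p d n * t.str p (d, n) ^ t.m (d, n) := by
  unfold PTD.Pd
  rw [List.range_succ, List.map_append, List.prod_append]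
  simp

/-- the products of the opposite exponents at the twisted surface -/
theorem Pd_neg (t : PTD P) (p : (D → ℝ) × ℝ) (g : D → SL)
    (hl : ∀ d i, i < T.num t.c d →
      t.str (t.tw p) (d, i) = (g d)⁻¹ * t.Pd p d i * t.str p (d, i) * (t.Pd p d i)⁻¹ * g d)
    (d : D) (n : ℕ) (hn : n ≤ T.num t.c d) :
    t.neg.Pd (t.tw p) d n = (g d)⁻¹ * (t.Pd p d n)⁻¹ * g d := by
  induction n with
  | zero =>
    simp [PTD.Pd]
  | succ n ih =>
    have e1 : t.neg.str (t.tw p) (d, n) = t.str (t.tw p) (d, n) := rfl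
    have e2 : t.neg.m (d, n) = - t.m (d, n) := rfl
    rw [Pd_succ, ih (by omega), e1, e2, hl d n (by omega), Pd_succ]
    have e3 : (g d)⁻¹ * t.Pd p d n * t.str p (d, n) * (t.Pd p d n)⁻¹ * g d =
        ((g d)⁻¹ * t.Pd p d n) * t.str p (d, n) * ((g d)⁻¹ * t.Pd p d n)⁻¹ := by
      group
    rw [e3, conj_zpow]
    rw [_root_.zpow_neg]
    group

theorem iou_ne (P : Portal T) : P.u ≠ T.io P.u := fun h => T.io_ne P.u h.symm

theorem iov_ne (P : Portal T) : P.v ≠ T.io P.v := fun h => T.io_ne P.v h.symm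

theorem u_ne_iov (P : Portal T) : P.u ≠ T.io P.v := fun h => P.hne (by rw [h, T.io_io])


theorem turns_succ (x : D → ℝ) (d : D) (j : ℕ) :
    Portal.turns (T := T) x d (j + 1) =
      Portal.turns (T := T) x d j * step false (x (T.sg (T.sg (T.rho^[j] d)))) := by
  induction j generalizing d with
  | zero =>
    simp [Portal.turns, Tri.hol, Tri.turn]
  | succ j ih =>
    have e : ∀ (d : D) (j : ℕ), Portal.turns (T := T) x d (j + 1) =
        step false (x (T.sg (T.sg d))) * Portal.turns (T := T) x (T.rho d) j := by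
      intro d j
      rfl
    rw [e d (j + 1), ih (T.rho d), e d j, Function.iterate_succ_apply, mul_assoc]

theorem rho_inj (T : Tri D) : Function.Injective T.rho := by
  intro a b h
  unfold Tri.rho at h
  exact T.sg.injective (T.sg.injective (T.io.injective h))

theorem per_pos (T : Tri D) (d : D) : 0 < Function.minimalPeriod T.rho d :=
  Function.minimalPeriod_pos_of_mem_periodicPts ((rho_inj T).mem_periodicPts d)

/-- vectors -/
def vp (g : SL) (b : ℝ × ℝ) : ℝ × ℝ := (g.1 0 0 * b.1 + g.1 0 1 * b.2, g.1 1 0 * b.1 + g.1 1 1 * b.2)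

theorem vp_mul (g h : SL) (b : ℝ × ℝ) : vp (g * h) b = vp g (vp h b) := by
  unfold vp
  refine Prod.ext ?_ ?_ <;>
    simp [Matrix.SpecialLinearGroup.coe_mul, Matrix.mul_apply, Fin.sum_univ_two] <;> ring

theorem vp_smul (g : SL) (r : ℝ) (b : ℝ × ℝ) : vp g (r • b) = r • vp g b := by
  unfold vp
  refine Prod.ext ?_ ?_ <;> simp only [Prod.smul_fst, Prod.smul_snd, smul_eq_mul] <;> ring

theorem act_vp {g : SL} {s s' r : ℝ} (h : Act g s s' r) :
    vp g (-s, 1) = r • ((-s', 1) : ℝ × ℝ) := by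
  obtain ⟨h1, h2⟩ := h
  unfold vp
  refine Prod.ext ?_ ?_
  · simp only [Prod.smul_fst, smul_eq_mul]
    linarith
  · simp only [Prod.smul_snd, smul_eq_mul]
    linarith

theorem inv (hG : C_gauge) (hT : C_twT) (hL : C_loop) (hR : C_R) (hJ : C_J) (hE : C_eig)
    (hU : C_uniq) : C_inv := by
  intro D _ _ T P t p hp
  obtain ⟨g, hg, hg01, hg11⟩ := hG T P t p hp
  obtain ⟨hq, hcyc, hJg⟩ := hT T P t p hp
  have hgJ := hJg g hg hg01 hg11
  have hio : ∀ d, (t.tw p).1 (T.io d) = (t.tw p).1 d := hq.1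
  have hpio : ∀ d, p.1 (T.io d) = p.1 d := hp.1
  have hl := hL T P t p hp g (fun d => ⟨(hg d).1, (hg d).2.1⟩) hgJ hio
  have hPd := Pd_neg t p g hl
  generalize hqd : t.tw p = q at *
  have hH : ∀ d, t.neg.H q d = (g d)⁻¹ * (t.H p d)⁻¹ * g d := fun d => hPd d _ le_rfl
  have hB : t.neg.B q = (g P.v)⁻¹ * (t.B p)⁻¹ * g P.v :=
    hPd P.v t.a (by have := t.hc.2.2; omega)
  have hRs : ∀ d, t.neg.Rs q d = (g d)⁻¹ * W * g (T.sg d) := by
    intro d
    have h1 := (hg d).1
    have h2 : t.neg.Rs q d = (g d)⁻¹ * (t.H p d)⁻¹ * (g d * W) := by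
      unfold PTD.Rs
      rw [hH]
      group
    rw [h2, ← h1]
    unfold PTD.Rs
    group
  have hRi0 : ∀ d, d ≠ T.io P.u → d ≠ T.io P.v →
      t.neg.Ri q d = (g d)⁻¹ * E (p.1 d) * g (T.io d) := by
    intro d h1 h2
    have h3 := (hg d).2.1
    have h4 : t.neg.Ri q d = (g d)⁻¹ * (t.H p d)⁻¹ * (g d * E (q.1 d)) := by
      unfold PTD.Ri
      rw [if_neg h1, if_neg h2, hH]
      group
    rw [h4, ← h3]
    unfold PTD.Ri
    rw [if_neg h1, if_neg h2]
    group
  have huv' : P.u ≠ P.v := P.huv 0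
  have hRi : ∀ d, t.neg.Ri q d = (g d)⁻¹ * E (p.1 d) * g (T.io d) := by
    have key : ∀ w, w ≠ T.io P.u → w ≠ T.io P.v →
        -(t.neg.H q w * E (q.1 w))⁻¹ = (g (T.io w))⁻¹ * E (p.1 (T.io w)) * g (T.io (T.io w)) := by
      intro w h1 h2
      have h3 : t.neg.H q w * E (q.1 w) = (g w)⁻¹ * E (p.1 w) * g (T.io w) := by
        rw [← hRi0 w h1 h2]
        unfold PTD.Ri
        rw [if_neg h1, if_neg h2]
      rw [h3, T.io_io, hpio w]
      have h4 : ((g w)⁻¹ * E (p.1 w) * g (T.io w))⁻¹ =
          (g (T.io w))⁻¹ * (E (p.1 w))⁻¹ * g w := by group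
      rw [h4, E_inv', mul_neg, neg_mul, neg_neg]
    intro d
    by_cases h1 : d = T.io P.u
    · have h2 : t.neg.Ri q d = -(t.neg.H q P.u * E (q.1 P.u))⁻¹ := by
        unfold PTD.Ri
        rw [if_pos h1]
      rw [h2, key P.u (iou_ne P) (u_ne_iov P), h1]
    · by_cases h2 : d = T.io P.v
      · have h3 : t.neg.Ri q d = -(t.neg.H q P.v * E (q.1 P.v))⁻¹ := by
          unfold PTD.Ri
          rw [if_neg h1, if_pos h2]
        rw [h3, key P.v P.hne (iov_ne P), h2]
      · exact hRi0 d h1 h2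
  have hRJ : t.neg.RJ q = (g P.u)⁻¹ * P.J p * g P.v := by
    have h1 : P.J q = (g P.u)⁻¹ * t.RJ p * g P.v := by
      rw [mul_assoc, hgJ]
      group
    unfold PTD.RJ at h1 ⊢
    rw [hB, h1]
    group
  have hX : ∀ d, X t.neg q d = (g d)⁻¹ * step false (p.1 (T.sg (T.sg d))) * g (T.rho d) := by
    intro d
    have e : T.rho d = T.io (T.sg (T.sg d)) := rfl
    unfold X
    rw [hRs, hRs, hRi, step_false, e]
    group
  obtain ⟨g', hg', hg'01, hg'11⟩ := hG T P t.neg q hq
  have hgJ' := (hT T P t.neg q hq).2.2 g' hg' hg'01 hg'11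
  obtain ⟨e1, e2, e3, e4, e5, e6, e7, e8, e9, e10, e11, e12, e13, e14, -⟩ := hE T P t.neg q hq
  obtain ⟨-, -, -, -, -, -, -, -, -, -, -, -, -, f14, -⟩ := hE T P t p hp
  obtain ⟨r1, r2, r3, r4, r5⟩ := hR T P t.neg q hq.1
  obtain ⟨j1, j2, j3, j4, j5⟩ := hJ T P p hp
  -- the product around the tail of `u`
  have hA : ∀ j, ((List.range j).map (fun i => X t.neg q (T.rho^[i] P.u))).prod =
      (g P.u)⁻¹ * Portal.turns (T := T) p.1 P.u j * g (T.rho^[j] P.u) := by
    intro j
    induction j with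
    | zero => simp [Portal.turns, Tri.hol]
    | succ j ih =>
      rw [List.range_succ, List.map_append, List.prod_append, ih]
      simp only [List.map_cons, List.map_nil, List.prod_cons, List.prod_nil, mul_one]
      rw [hX, turns_succ, Function.iterate_succ_apply']
      group
  have hB' : ∀ j, j < Function.minimalPeriod T.rho P.u →
      ((List.range j).map (fun i => X t.neg q (T.rho^[i] P.u))).prod =
        Portal.turns (T := T) q.1 P.u j := by
    intro j
    induction j with
    | zero => intro _; simp [Portal.turns, Tri.hol]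
    | succ j ih =>
      intro hj
      rw [List.range_succ, List.map_append, List.prod_append, ih (by omega)]
      simp only [List.map_cons, List.map_nil, List.prod_cons, List.prod_nil, mul_one]
      rw [turns_succ]
      congr 1
      have e : T.rho^[j + 1] P.u = T.io (T.sg (T.sg (T.rho^[j] P.u))) := by
        rw [Function.iterate_succ_apply']
        rfl
      refine r3 _ ?_ ?_
      · intro h
        rw [h, T.io_io] at e
        exact Function.not_isPeriodicPt_of_pos_of_lt_minimalPeriod (Nat.succ_ne_zero j) hj e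
      · intro h
        rw [h, T.io_io] at e
        exact P.huv _ e
  have hper := per_pos T P.u
  have hM : t.neg.Mp q = (g P.u)⁻¹ * Portal.rot (T := T) p.1 P.u * g P.u := by
    obtain ⟨k, hk⟩ : ∃ k, Function.minimalPeriod T.rho P.u = k + 1 :=
      ⟨_, (Nat.succ_pred_eq_of_pos hper).symm⟩
    have h1 := hA (k + 1)
    rw [← hk, Function.iterate_minimalPeriod] at h1
    have h2 : ((List.range (k + 1)).map (fun i => X t.neg q (T.rho^[i] P.u))).prod =
        t.neg.Mp q := by
      rw [List.range_succ, List.map_append, List.prod_append, hB' k (by omega)]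
      simp only [List.map_cons, List.map_nil, List.prod_cons, List.prod_nil, mul_one]
      have e : T.sg (T.sg (T.rho^[k] P.u)) = T.io P.u := by
        have e' : T.rho^[k + 1] P.u = T.io (T.sg (T.sg (T.rho^[k] P.u))) := by
          rw [Function.iterate_succ_apply']
          rfl
        rw [← hk, Function.iterate_minimalPeriod] at e'
        have e'' := congrArg T.io e'
        rw [T.io_io] at e''
        exact e''.symm
      have h3 := r4 _ e
      unfold X
      rw [h3]
      unfold PTD.Mp Portal.rot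
      rw [hk, turns_succ]
      group
    rw [← h2, ← hk, h1]
    rfl
  -- the vectors
  have z0 : ∀ d, (vp (g d) (-(t.neg.xi q d), 1)).1 = 0 →
      (vp (g (T.rho d)) (-(t.neg.xi q (T.rho d)), 1)).1 = 0 := by
    intro d h0
    obtain ⟨r, hr, hact⟩ := e12 d
    have h1 := act_vp hact
    have h2 : t.neg.Rs q d * t.neg.Rs q (T.sg d) * t.neg.Ri q (T.sg (T.sg d)) =
        (g d)⁻¹ * (step false (p.1 (T.sg (T.sg d))) * g (T.rho d)) := by
      have := hX d
      unfold X at this
      rw [this]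
      group
    rw [h2, vp_mul] at h1
    have h3 : vp (g d) (vp (g d)⁻¹ (vp (step false (p.1 (T.sg (T.sg d))) * g (T.rho d))
        (-(t.neg.xi q (T.rho d)), 1))) = vp (step false (p.1 (T.sg (T.sg d))) * g (T.rho d))
        (-(t.neg.xi q (T.rho d)), 1) := by
      rw [← vp_mul, mul_inv_cancel]
      unfold vp
      simp
    rw [h1, vp_smul, vp_mul] at h3
    have h4 := congrArg Prod.fst h3
    rw [Prod.smul_fst, h0, smul_zero] at h4
    have h5 : ∀ b : ℝ × ℝ, (vp (step false (p.1 (T.sg (T.sg d)))) b).1 =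
        exp (-(p.1 (T.sg (T.sg d))) / 2) * b.1 := by
      intro b
      simp [vp, step, U, Del, Matrix.SpecialLinearGroup.coe_mul, Matrix.mul_apply,
        Fin.sum_univ_two]
    rw [h5] at h4
    exact (mul_eq_zero.1 h4.symm).resolve_left (exp_pos _).ne'
  have zu : (vp (g P.u) (-(t.neg.xi q P.u), 1)).1 = 0 := by
    have h1 := act_vp e10
    rw [hM, mul_assoc, vp_mul] at h1
    have h3 : vp (g P.u) (vp (g P.u)⁻¹ (vp (Portal.rot (T := T) p.1 P.u * g P.u)
        (-(t.neg.xi q P.u), 1))) = vp (Portal.rot (T := T) p.1 P.u * g P.u)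
        (-(t.neg.xi q P.u), 1) := by
      rw [← vp_mul, mul_inv_cancel]
      unfold vp
      simp
    rw [h1, vp_smul, vp_mul] at h3
    have h4 := congrArg Prod.fst h3
    rw [Prod.smul_fst, smul_eq_mul] at h4
    have h01 : (Portal.rot (T := T) p.1 P.u).1 0 1 = 0 := (j1 P.u _).1
    have h00 := (j2 P.u).1
    have hcu : T.cyc p.1 P.u = - T.cyc p.1 P.v := hp.2.2.1
    have hcv : 0 < T.cyc p.1 P.v := hp.2.1
    have h5 : (vp (Portal.rot (T := T) p.1 P.u) (vp (g P.u) (-(t.neg.xi q P.u), 1))).1 =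
        exp (T.cyc p.1 P.v / 2) * (vp (g P.u) (-(t.neg.xi q P.u), 1)).1 := by
      conv_lhs => unfold vp
      simp only
      rw [h01, zero_mul, add_zero, h00, hcu, neg_neg]
      rfl
    rw [h5] at h4
    have h6 : (t.neg.kap q)⁻¹ < exp (T.cyc p.1 P.v / 2) := by
      have h7 : (t.neg.kap q)⁻¹ < 1 := inv_lt_one_of_one_lt₀ e2
      have h8 : 1 < exp (T.cyc p.1 P.v / 2) := Real.one_lt_exp_iff.2 (by linarith)
      linarith
    have h9 : (exp (T.cyc p.1 P.v / 2) - (t.neg.kap q)⁻¹) *
        (vp (g P.u) (-(t.neg.xi q P.u), 1)).1 = 0 := by linarith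
    exact (mul_eq_zero.1 h9).resolve_left (by linarith)
  have zv : (vp (g P.v) (-(t.neg.xi q P.v), 1)).1 = 0 := by
    have h1 := act_vp e11
    rw [hRJ, mul_assoc, vp_mul] at h1
    have h3 : vp (g P.u) (vp (g P.u)⁻¹ (vp (P.J p * g P.v)
        (-(t.neg.xi q P.v), 1))) = vp (P.J p * g P.v)
        (-(t.neg.xi q P.v), 1) := by
      rw [← vp_mul, mul_inv_cancel]
      unfold vp
      simp
    rw [h1, vp_smul, vp_mul] at h3
    have h4 := congrArg Prod.fst h3
    rw [Prod.smul_fst, zu, smul_zero] at h4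
    have h5 : ∀ b : ℝ × ℝ, (vp (P.J p) b).1 = exp (p.2 / 2) * b.1 := by
      intro b
      simp [vp, Portal.J]
    rw [h5] at h4
    exact (mul_eq_zero.1 h4.symm).resolve_left (exp_pos _).ne'
  have zorb : ∀ w, (vp (g w) (-(t.neg.xi q w), 1)).1 = 0 → ∀ j,
      (vp (g (T.rho^[j] w)) (-(t.neg.xi q (T.rho^[j] w)), 1)).1 = 0 := by
    intro w hw j
    induction j with
    | zero => exact hw
    | succ j ih =>
      rw [Function.iterate_succ_apply']
      exact z0 _ ih
  have zall : ∀ d, (vp (g d) (-(t.neg.xi q d), 1)).1 = 0 := by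
    intro d
    by_cases h1 : ∃ j, T.rho^[j] P.u = d
    · obtain ⟨j, rfl⟩ := h1
      exact zorb _ zu j
    · by_cases h2 : ∃ j, T.rho^[j] P.v = d
      · obtain ⟨j, rfl⟩ := h2
        exact zorb _ zv j
      · -- the other punctures
        have orb : ∀ w, (¬ ∃ j, T.rho^[j] w = d) → ∀ j, T.rho^[j] d ≠ w := by
          intro w hw j hj
          apply hw
          have hpd := per_pos T d
          refine ⟨j * Function.minimalPeriod T.rho d - j, ?_⟩
          rw [← hj, ← Function.iterate_add_apply]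
          have h3 : j * Function.minimalPeriod T.rho d - j + j =
              j * Function.minimalPeriod T.rho d := by
            have := Nat.le_mul_of_pos_right j hpd
            omega
          rw [h3]
          have h4 : Function.IsPeriodicPt T.rho (j * Function.minimalPeriod T.rho d) d :=
            (Function.isPeriodicPt_minimalPeriod T.rho d).const_mul j
          exact h4
        have hx' := e14 d (orb P.u h1) (orb P.v h2)
        have hx := f14 d (orb P.u h1) (orb P.v h2)
        have h5 := (hg d).2.2.1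
        rw [hx, neg_zero, zero_mul] at h5
        unfold vp
        simp only
        rw [hx', h5]
        simp
  have hfin := hU T P p (t.neg.tw q) (fun d => g d * g' d) (fun d => ⟨?_, ?_, ?_⟩) ?_
  · exact hfin.symm
  · have h1 := (hg' d).1
    rw [hRs] at h1
    have h2 : W * (g (T.sg d) * g' (T.sg d)) = g d * ((g d)⁻¹ * W * g (T.sg d) * g' (T.sg d)) := by
      group
    rw [h2, h1]
    group
  · have h1 := (hg' d).2.1
    rw [hRi] at h1
    have h2 : E (p.1 d) * (g (T.io d) * g' (T.io d)) =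
        g d * ((g d)⁻¹ * E (p.1 d) * g (T.io d) * g' (T.io d)) := by
      group
    rw [h2, h1]
    group
  · have h1 := (hg' d).2.2.1
    have h2 := zall d
    unfold vp at h2
    simp only at h2
    rw [mul01', h1]
    linear_combination (g' d).1 1 1 * h2
  · have h1 := hgJ'
    rw [hRJ] at h1
    have h2 : P.J p * (g P.v * g' P.v) = g P.u * ((g P.u)⁻¹ * P.J p * g P.v * g' P.v) := by
      group
    rw [h2, h1]
    group

end Run7.h96.DG
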